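import Pool.Agent.Y226.ZU.Main

/-!
# Zilber-Pink for affine images of a curve in `Y(1)^n`: a place for each set of four coordinates

`main_u` (helper226) is applied to the projections of the curve to at most four coordinates.
-/

set_option autoImplicit false

open UpperHalfPlane H294ZP Polynomial IsDedekindDomain NumberField

namespace Pool.Agent.Y212.ZP

open Pool.Agent.Y226 Pool.Agent.Y226.ZG Pool.Agent.Y226.ZM Pool.Agent.Y226.ZU

/-- two independent relations involve at most four coordinates -/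
theorem restrict {Γ : Set ℂ} {n r : ℕ} (Z : SV Γ n r) (hr : r + 2 ≤ n) :
    ∃ S : Finset (Fin n), S.card ≤ 4 ∧ ∃ (t : ℕ) (Z' : SV Γ S.card t), t + 2 ≤ S.card ∧
      ∀ x ∈ Z.locus, (fun j => x (S.orderEmbOfFin rfl j)) ∈ Z'.locus := by
  classical
  have hn : 0 < n := by omega
  have hrep : ∀ l : Fin r, ∃ i : Fin n, (∃ i', Z.cls i' = some l) → Z.cls i = some l := by
    intro l
    by_cases h : ∃ i', Z.cls i' = some l
    · obtain ⟨i, hi⟩ := h
      exact ⟨i, fun _ => hi⟩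
    · exact ⟨⟨0, hn⟩, fun h' => absurd h' h⟩
  choose rep hrep using hrep
  obtain ⟨U, hU⟩ : ∃ U : Finset (Fin r), U = Finset.univ.filter fun l => ∃ i, Z.cls i = some l :=
    ⟨_, rfl⟩
  have hRc : (U.image rep).card ≤ r := by
    refine Finset.card_image_le.trans ?_
    calc U.card ≤ (Finset.univ : Finset (Fin r)).card := Finset.card_le_card (Finset.subset_univ _)
      _ = r := Finset.card_fin r
  have h2 : 1 < (Finset.univ \ U.image rep).card := by
    rw [Finset.card_sdiff_of_subset (Finset.subset_univ _), Finset.card_fin]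
    omega
  obtain ⟨a, ha, b, hb, hab⟩ := Finset.one_lt_card.1 h2
  rw [Finset.mem_sdiff] at ha hb
  obtain ⟨L, hL⟩ : ∃ L : Finset (Fin r),
      L = Finset.univ.filter fun l => Z.cls a = some l ∨ Z.cls b = some l := ⟨_, rfl⟩
  have hmL : ∀ l, l ∈ L ↔ (Z.cls a = some l ∨ Z.cls b = some l) := by
    intro l
    rw [hL, Finset.mem_filter]
    simp
  have hLU : ∀ l ∈ L, ∃ i, Z.cls i = some l := by
    intro l hl
    rcases (hmL l).1 hl with h | h
    · exact ⟨a, h⟩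
    · exact ⟨b, h⟩
  have hrepL : ∀ l ∈ L, Z.cls (rep l) = some l := fun l hl => hrep l (hLU l hl)
  have hL2 : L.card ≤ 2 := by
    have e1 : L = (Finset.univ.filter fun l => Z.cls a = some l) ∪
        (Finset.univ.filter fun l => Z.cls b = some l) := by
      ext l
      rw [hmL, Finset.mem_union, Finset.mem_filter, Finset.mem_filter]
      simp
    rw [e1]
    refine (Finset.card_union_le _ _).trans ?_
    have h1 : ∀ c : Fin n, (Finset.univ.filter fun l => Z.cls c = some l).card ≤ 1 := by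
      intro c
      refine Finset.card_le_one.2 fun l hl l' hl' => ?_
      rw [Finset.mem_filter] at hl hl'
      exact Option.some.inj (hl.2.symm.trans hl'.2)
    have := h1 a
    have := h1 b
    omega
  obtain ⟨S, hS⟩ : ∃ S : Finset (Fin n), S = {a, b} ∪ L.image rep := ⟨_, rfl⟩
  have hdisj : Disjoint ({a, b} : Finset (Fin n)) (L.image rep) := by
    rw [Finset.disjoint_left]
    intro i hi hi'
    obtain ⟨l, hl, rfl⟩ := Finset.mem_image.1 hi'
    have hlU : rep l ∈ U.image rep := by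
      refine Finset.mem_image_of_mem _ ?_
      rw [hU, Finset.mem_filter]
      exact ⟨Finset.mem_univ _, hLU l hl⟩
    rw [Finset.mem_insert, Finset.mem_singleton] at hi
    rcases hi with h | h
    · exact ha.2 (h ▸ hlU)
    · exact hb.2 (h ▸ hlU)
  have hScard : S.card = L.card + 2 := by
    rw [hS, Finset.card_union_of_disjoint hdisj, Finset.card_pair hab,
      Finset.card_image_of_injOn]
    · omega
    · intro l hl l' hl' h
      have h1 := hrepL l hl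
      have h3 := hrepL l' hl'
      rw [h, h3] at h1
      exact (Option.some.inj h1).symm
  have hcls : ∀ i ∈ S, ∀ l, Z.cls i = some l → l ∈ L := by
    intro i hi l hl
    rw [hS, Finset.mem_union, Finset.mem_insert, Finset.mem_singleton, Finset.mem_image] at hi
    rcases hi with (rfl | rfl) | ⟨l', hl', rfl⟩
    · exact (hmL l).2 (Or.inl hl)
    · exact (hmL l).2 (Or.inr hl)
    · have h1 := hrepL l' hl'
      rw [hl] at h1
      rw [Option.some.inj h1]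
      exact hl'
  refine ⟨S, by omega, L.card, ⟨fun j => if h : ∃ l, l ∈ L ∧ Z.cls (S.orderEmbOfFin rfl j) = some l
    then some (L.equivFin ⟨h.choose, h.choose_spec.1⟩) else none,
    fun j => Z.mat (S.orderEmbOfFin rfl j), fun j => Z.det_pos _,
    fun j => Z.const (S.orderEmbOfFin rfl j), fun j => Z.int _⟩, by omega, ?_⟩
  rintro x ⟨z, hz⟩
  refine ⟨fun q => z (L.equivFin.symm q : L), fun j => ⟨fun hj => ?_, fun q hq => ?_⟩⟩
  · refine (hz _).1 ?_
    by_contra hne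
    obtain ⟨l, hl⟩ := Option.ne_none_iff_exists'.1 hne
    have hlL := hcls _ (Finset.orderEmbOfFin_mem S rfl j) l hl
    have hex : ∃ l, l ∈ L ∧ Z.cls (S.orderEmbOfFin rfl j) = some l := ⟨l, hlL, hl⟩
    simp only [dif_pos hex] at hj
    exact absurd hj (by simp)
  · by_cases hex : ∃ l, l ∈ L ∧ Z.cls (S.orderEmbOfFin rfl j) = some l
    · simp only [dif_pos hex, Option.some.injEq] at hq
      have h1 : ((L.equivFin.symm q : L) : Fin r) = hex.choose := by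
        rw [← hq, Equiv.symm_apply_apply]
      obtain ⟨w, hw1, hw2⟩ := (hz _).2 _ hex.choose_spec.2
      rw [← h1] at hw1
      exact ⟨w, hw1, hw2⟩
    · simp only [dif_neg hex] at hq
      exact absurd hq (by simp)

theorem four_u {n : ℕ} (I : Ideal (MvPolynomial (Fin n) QA)) (hIp : I.IsPrime)
    (hconst : ∀ (i : Fin n) (c : QA), MvPolynomial.X i - MvPolynomial.C c ∉ I)
    (hgen : ∀ i j : Fin n, i ≠ j → ∃ (a b : ℕ) (g : ℕ → ℕ → QA),
      g 0 0 ≠ 0 ∧ g a 0 ≠ 0 ∧ g 0 b ≠ 0 ∧ g a b ≠ 0 ∧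
      ∑ u ∈ Finset.range (a + 1), ∑ v ∈ Finset.range (b + 1),
        MvPolynomial.C (g u v) * MvPolynomial.X i ^ u * MvPolynomial.X j ^ v ∈ I) (W : ℕ)
    (Γ : Finset ℂ) (hΓ : ∀ γ ∈ Γ, IsAlgebraic ℚ γ) :
    ∃ D : ℕ, ∀ P B : ℕ, ∃ G : ℕ, ∀ (K : Type) [Field K] [NumberField K]
      (σ : K →+* ℂ) (lam mu : Fin n → K),
      (∀ S : Finset (Fin n), S.card ≤ 4 → ∃ (p : ℕ) (v : HeightOneSpectrum (𝓞 K)) (e : ℕ)
        (w : Fin n → ℕ), p.Prime ∧ D < p ∧ p ≤ P ∧ (p : 𝓞 K) ∈ v.asIdeal ∧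
        (p : 𝓞 K) ∉ v.asIdeal ^ 2 ∧ Nat.card (𝓞 K ⧸ v.asIdeal) ≤ B ∧ 0 < e ∧
        ∀ i ∈ S, 0 < w i ∧ w i ≤ W ∧ v.valuation K (lam i) = WithZero.exp ((w i * e : ℕ) : ℤ) ∧
          v.valuation K (mu i) < v.valuation K (lam i)) →
      (∀ x ∈ im I (fun i => σ (lam i)) (fun i => σ (mu i)),
        ∀ (r : ℕ) (Z : SV (Γ : Set ℂ) n r), r + 2 ≤ n → x ∈ Z.locus →
          ∃ j l : Fin n, j ≠ l ∧ ∃ N : ℕ, 0 < N ∧ N ≤ G ∧ Isog N (x j) (x l)) ∧
      {x | x ∈ im I (fun i => σ (lam i)) (fun i => σ (mu i)) ∧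
        ∃ (r : ℕ) (Z : SV (Γ : Set ℂ) n r), r + 2 ≤ n ∧ x ∈ Z.locus}.Finite ∧
      {x | x ∈ im I (fun i => σ (lam i)) (fun i => σ (mu i)) ∧
        ∃ (r : ℕ) (Z : SV (Γ : Set ℂ) n r), r + 2 ≤ n ∧ x ∈ Z.locus}.ncard ≤ G ∧
      ∀ (r : ℕ) (Z : SV (Γ : Set ℂ) n r), r < n →
        ¬ im I (fun i => σ (lam i)) (fun i => σ (mu i)) ⊆ Z.locus := by
  classical
  haveI := hIp
  -- the projections
  have hproj : ∀ S : Finset (Fin n), ∃ D : ℕ, ∀ p : ℕ, ∃ G : ℕ → ℕ, p.Prime → D < p → ∀ B : ℕ,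
      ∀ (K : Type) [Field K] [NumberField K]
      (σ : K →+* ℂ) (v : HeightOneSpectrum (𝓞 K)), (p : 𝓞 K) ∈ v.asIdeal →
      (p : 𝓞 K) ∉ v.asIdeal ^ 2 → Nat.card (𝓞 K ⧸ v.asIdeal) ≤ B →
      ∀ (lam mu : Fin n → K) (e : ℕ) (w : Fin n → ℕ), 0 < e →
      (∀ i ∈ S, 0 < w i ∧ w i ≤ W ∧ v.valuation K (lam i) = WithZero.exp ((w i * e : ℕ) : ℤ) ∧
        v.valuation K (mu i) < v.valuation K (lam i)) →
      ∀ x ∈ im I (fun i => σ (lam i)) (fun i => σ (mu i)),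
        ∀ (t : ℕ) (Z : SV (Γ : Set ℂ) S.card t), t + 2 ≤ S.card →
          (fun j => x (S.orderEmbOfFin rfl j)) ∈ Z.locus →
          ∃ j l : Fin n, j ≠ l ∧ ∃ N : ℕ, 0 < N ∧ N ≤ G B ∧ Isog N (x j) (x l) := by
    intro S
    let f : Fin S.card → Fin n := fun j => S.orderEmbOfFin rfl j
    have hf : Function.Injective f := (S.orderEmbOfFin rfl).injective
    have hfS : ∀ j, f j ∈ S := fun j => Finset.orderEmbOfFin_mem S rfl j
    have hIS : (I.comap (MvPolynomial.rename (R := QA) f)).IsPrime := inferInstance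
    obtain ⟨D, hD⟩ := main_u (I.comap (MvPolynomial.rename (R := QA) f)) hIS
      (fun i c h => hconst (f i) c (by
        rw [Ideal.mem_comap, map_sub, MvPolynomial.rename_X, MvPolynomial.rename_C] at h
        exact h))
      (fun i j hij => by
        obtain ⟨a, b, g, h1, h2, h3, h4, h5⟩ := hgen (f i) (f j) (fun h => hij (hf h))
        refine ⟨a, b, g, h1, h2, h3, h4, ?_⟩
        rw [Ideal.mem_comap, map_sum]
        simp only [map_sum, map_mul, map_pow, MvPolynomial.rename_X, MvPolynomial.rename_C]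
        exact h5) W Γ hΓ
    refine ⟨D, fun p => ?_⟩
    by_cases hp : p.Prime ∧ D < p
    · choose G hG using hD p hp.1 hp.2
      refine ⟨G, fun _ _ B K _ _ σ v hpv hpv2 hB lam mu e w he hw x hx t Z ht hZ => ?_⟩
      obtain ⟨y, hy, hxy⟩ := hx
      obtain ⟨h1, -⟩ := hG B K σ v hpv hpv2 hB (fun j => lam (f j)) (fun j => mu (f j)) e
        (fun j => w (f j)) he (fun j => hw (f j) (hfS j))
      obtain ⟨j, l, hjl, N, hN0, hN, hiso⟩ := h1 (fun j => x (f j)) ⟨fun j => y (f j), by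
          intro q hq
          have h2 := hy _ hq
          rwa [MvPolynomial.eval₂_rename] at h2, fun j => hxy (f j)⟩ t Z ht hZ
      exact ⟨f j, f l, fun h => hjl (hf h), N, hN0, hN, hiso⟩
    · exact ⟨fun _ => 0, fun h1 h2 => absurd ⟨h1, h2⟩ hp⟩
  choose D hD using hproj
  choose G hG using hD
  obtain ⟨𝔽, _, _, x, hx1, hx2⟩ := ff_of_prime I
  obtain ⟨𝒞, h𝒞⟩ := exists_GP x hx1 (fun i => by
      intro halg
      obtain ⟨r, hr, hr0⟩ := halg
      obtain ⟨c, hc⟩ := root_const (algebraMap QA 𝔽) hr hr0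
      apply hconst i c
      rw [← hx2, map_sub, MvPolynomial.aeval_X, MvPolynomial.aeval_C, hc, sub_self])
    (fun i j hij => by
      obtain ⟨a, b, g, h1, h2, h3, h4, h5⟩ := hgen i j hij
      refine ⟨a, b, mkG a b g, mkG_cor h1 h2 h3 h4, ?_⟩
      rw [← E2_mkG, ← hx2, aeval_E2, MvPolynomial.aeval_X, MvPolynomial.aeval_X] at h5
      exact h5)
  subst h𝒞
  -- the bound for the degrees
  have hgen' : ∃ A : ℕ, 0 < A ∧ ∀ i j : Fin n, i ≠ j → ∃ (a b : ℕ) (g : ℕ → ℕ → QA),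
      a ≤ A ∧ b ≤ A ∧ g a b ≠ 0 ∧ ∑ u ∈ Finset.range (a + 1), ∑ v ∈ Finset.range (b + 1),
        MvPolynomial.C (g u v) * MvPolynomial.X i ^ u * MvPolynomial.X j ^ v ∈ I := by
    have h1 : ∀ q : Fin n × Fin n, ∃ (a b : ℕ) (g : ℕ → ℕ → QA), q.1 ≠ q.2 → g a b ≠ 0 ∧
        ∑ u ∈ Finset.range (a + 1), ∑ v ∈ Finset.range (b + 1),
        MvPolynomial.C (g u v) * MvPolynomial.X q.1 ^ u * MvPolynomial.X q.2 ^ v ∈ I := by
      intro q
      by_cases h : q.1 = q.2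
      · exact ⟨0, 0, fun _ _ => 0, fun h' => absurd h h'⟩
      · obtain ⟨a, b, g, -, -, -, h4, h5⟩ := hgen q.1 q.2 h
        exact ⟨a, b, g, fun _ => ⟨h4, h5⟩⟩
    choose a b g h using h1
    refine ⟨1 + ∑ q : Fin n × Fin n, (a q + b q), by omega, fun i j hij => ?_⟩
    have h2 : a (i, j) + b (i, j) ≤ ∑ q : Fin n × Fin n, (a q + b q) :=
      Finset.single_le_sum (f := fun q => a q + b q) (fun _ _ => Nat.zero_le _)
        (Finset.mem_univ (i, j))
    exact ⟨a (i, j), b (i, j), g (i, j), by omega, by omega, (h (i, j) hij).1, (h (i, j) hij).2⟩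
  obtain ⟨A, hA, hgenA⟩ := hgen'
  refine ⟨∑ S, D S, fun P B => ?_⟩
  obtain ⟨G₀, hG₀⟩ : ∃ G₀ : ℕ, G₀ = ∑ S, ∑ p ∈ Finset.range (P + 1), G S p B := ⟨_, rfl⟩
  have hGle : ∀ S p, p ≤ P → G S p B ≤ G₀ := by
    intro S p hp
    rw [hG₀]
    refine le_trans ?_ (Finset.single_le_sum (f := fun S => ∑ p ∈ Finset.range (P + 1), G S p B)
      (fun _ _ => Nat.zero_le _) (Finset.mem_univ S))
    exact Finset.single_le_sum (f := fun p => G S p B) (fun _ _ => Nat.zero_le _)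
      (Finset.mem_range.2 (by omega))
  have hDle : ∀ S, D S ≤ ∑ S, D S := fun S =>
    Finset.single_le_sum (f := fun S => D S) (fun _ _ => Nat.zero_le _) (Finset.mem_univ S)
  set Q : Finset (Fin n × Fin n × ℕ) :=
    Finset.univ ×ˢ Finset.univ ×ˢ Finset.range (G₀ + 1) with hQ
  refine ⟨G₀ + ∑ q ∈ Q, n * A ^ n * dN q.2.2, ?_⟩
  intro K _ _ σ lam mu hS
  have halgσ : ∀ x : K, IsAlgebraic ℚ (σ x) := fun x =>
    (Algebra.IsAlgebraic.isAlgebraic (R := ℚ) x).algHom σ.toRatAlgHom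
  let σ' : K →+* QA :=
    { toFun := fun x => ⟨σ x, mem_QA.2 (halgσ x)⟩
      map_one' := Subtype.ext (map_one σ)
      map_mul' := fun x y => Subtype.ext (map_mul σ x y)
      map_zero' := Subtype.ext (map_zero σ)
      map_add' := fun x y => Subtype.ext (map_add σ x y) }
  have hσ' : ∀ x, rA (σ' x) = σ x := fun x => rfl
  have hlam0 : ∀ i, lam i ≠ 0 := by
    intro i h0
    obtain ⟨p, v, e, w, -, -, -, -, -, -, -, hw⟩ := hS {i} (by simp)
    have h1 := (hw i (Finset.mem_singleton_self i)).2.2.1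
    rw [h0, map_zero] at h1
    exact WithZero.exp_ne_zero h1.symm
  have hlam' : ∀ i, σ' (lam i) ≠ 0 := fun i h => hlam0 i ((map_eq_zero σ').1 h)
  have hiso : ∀ x ∈ im I (fun i => σ (lam i)) (fun i => σ (mu i)),
      ∀ (r : ℕ) (Z : SV (Γ : Set ℂ) n r), r + 2 ≤ n → x ∈ Z.locus →
        ∃ j l : Fin n, j ≠ l ∧ ∃ N : ℕ, 0 < N ∧ N ≤ G₀ ∧ Isog N (x j) (x l) := by
    intro x hx r Z hr hZ
    obtain ⟨S, hS4, t, Z', ht, hZ'⟩ := restrict Z hr
    obtain ⟨p, v, e, w, hp, hDp, hpP, hpv, hpv2, hB, he, hw⟩ := hS S hS4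
    obtain ⟨j, l, hjl, N, hN0, hN, h⟩ := hG S p hp ((hDle S).trans_lt hDp) B K σ v hpv hpv2 hB
      lam mu e w he hw x hx t Z' ht (hZ' x hZ)
    exact ⟨j, l, hjl, N, hN0, hN.trans (hGle S p hpP), h⟩
  have hf : ∀ q : Fin n × Fin n × ℕ, ∃ f, f ∉ I ∧ Ideal.Quotient.mk I f ∈ BB I (dN q.2.2) ∧
      (q.1 ≠ q.2.1 → 0 < q.2.2 →
      f = PsiMA (fun i => σ' (lam i)) (fun i => σ' (mu i)) q.1 q.2.1 q.2.2) := by
    rintro ⟨j, k, N⟩
    by_cases h : j ≠ k ∧ 0 < N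
    · exact ⟨_, psi_notMem 𝒞 hx2 hlam' h.1 h.2, PsiMA_BB I _ _ j k N, fun _ _ => rfl⟩
    · refine ⟨1, fun h1 => hIp.ne_top ((Ideal.eq_top_iff_one I).2 h1), ?_,
        fun h1 h2 => absurd ⟨h1, h2⟩ h⟩
      refine BB_mono (Nat.zero_le _) (BB_mk fun i => ?_)
      rw [← MvPolynomial.C_1, MvPolynomial.degreeOf_C]
  choose f hf0 hfB hf1 using hf
  set E : (Fin n → ℂ) → (Fin n → ℂ) := fun y i => σ (lam i) * y i + σ (mu i) with hE
  have hsub : {x | x ∈ im I (fun i => σ (lam i)) (fun i => σ (mu i)) ∧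
        ∃ (r : ℕ) (Z : SV (Γ : Set ℂ) n r), r + 2 ≤ n ∧ x ∈ Z.locus} ⊆
      ⋃ q ∈ Q, E '' {y | y ∈ VC I ∧ MvPolynomial.eval₂ rA y (f q) = 0} := by
    rintro x ⟨⟨y, hy, hxy⟩, r, Z, hr, hZ⟩
    have hxE : E y = x := funext fun i => (hxy i).symm
    obtain ⟨j, l, hjl, N, hN0, hN, τ, τ', a, b, c, d, hdet, hτ, hxj, hxl⟩ :=
      hiso x ⟨y, hy, hxy⟩ r Z hr hZ
    rw [Set.mem_iUnion₂]
    refine ⟨(j, l, N), ?_, y, ⟨hy, ?_⟩, hxE⟩
    · simp only [hQ, Finset.mem_product, Finset.mem_univ, Finset.mem_range, true_and]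
      omega
    · rw [hf1 (j, l, N) hjl hN0, PsiMA_eval₂]
      obtain ⟨-, -, -, -, -, -, -, -, -, -, h5⟩ := modular_spec N hN0
      have hΨ := h5 τ τ' a b c d hdet hτ
      rw [← hxj, ← hxl] at hΨ
      have ej : rA (σ' (lam j)) * y j + rA (σ' (mu j)) = x j := (hxy j).symm
      have el : rA (σ' (lam l)) * y l + rA (σ' (mu l)) = x l := (hxy l).symm
      simp only [ej, el]
      exact hΨ
  have hUfin : (⋃ q ∈ Q, E '' {y | y ∈ VC I ∧ MvPolynomial.eval₂ rA y (f q) = 0}).Finite :=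
    Set.Finite.biUnion (Finset.finite_toSet _) fun q _ => (zeros_finite 𝒞 hx2 (hf0 q)).image _
  refine ⟨fun x hx r Z hr hZ => ?_, hUfin.subset hsub, ?_, ?_⟩
  · obtain ⟨j, l, hjl, N, hN0, hN, h⟩ := hiso x hx r Z hr hZ
    exact ⟨j, l, hjl, N, hN0, hN.trans (Nat.le_add_right _ _), h⟩
  · by_cases hn : n = 0
    · have hempty : {x | x ∈ im I (fun i => σ (lam i)) (fun i => σ (mu i)) ∧
        ∃ (r : ℕ) (Z : SV (Γ : Set ℂ) n r), r + 2 ≤ n ∧ x ∈ Z.locus} = ∅ := by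
        refine Set.eq_empty_iff_forall_notMem.2 ?_
        rintro x ⟨-, r, -, hr, -⟩
        omega
      rw [hempty, Set.ncard_empty]
      exact Nat.zero_le _
    · refine (Set.ncard_le_ncard hsub hUfin).trans ?_
      refine (Finset.set_ncard_biUnion_le Q _).trans ?_
      refine (Finset.sum_le_sum fun q _ => ?_).trans (Nat.le_add_left _ _)
      refine (Set.ncard_image_le (zeros_finite 𝒞 hx2 (hf0 q))).trans ?_
      exact zeros_card 𝒞 hx2 hIp (Nat.pos_of_ne_zero hn) hA hgenA (hf0 q) (hfB q)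
  · intro r Z hr hsub'
    obtain ⟨f, hf, hf'⟩ := exists_eqn 𝒞 hx2 hconst hΓ hlam' (mu := fun i => σ' (mu i)) Z hr
    apply hf
    have h1 : f ∈ MvPolynomial.vanishingIdeal QA (MvPolynomial.zeroLocus ℂ I) := fun y hy =>
      hf' y (hsub' ⟨y, hy, fun _ => rfl⟩)
    rwa [MvPolynomial.IsPrime.vanishingIdeal_zeroLocus] at h1

end Pool.Agent.Y212.ZP
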